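import Pool.Agent.U753.MG.Stm

/-!
# Project MG, package IN: the interaction
-/

set_option autoImplicit false

open scoped BigOperators Matrix ComplexOrder
open scoped Matrix.Norms.L2Operator

noncomputable section

namespace Pool.Agent.U329.MG

open Pool.Agent.TH235.PP (BoxOp TorOp Site term ham sh normSq ip)
open Pool.Agent.U753.MK Pool.Agent.U753.MG

/-- the position in the lexicographic order -/
def pos {L : ℕ} (v : Site L) : ℕ := v.1.val * L + v.2.val

lemma pos_inj (L : ℕ) [NeZero L] : Function.Injective (pos (L := L)) := by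
  intro v w h
  unfold pos at h
  have h1 := ZMod.val_lt v.2
  have h2 := ZMod.val_lt w.2
  have key : v.1.val = w.1.val := by
    rcases lt_trichotomy v.1.val w.1.val with h3 | h3 | h3
    · have : (v.1.val + 1) * L ≤ w.1.val * L := Nat.mul_le_mul_right L h3
      rw [Nat.add_mul, one_mul] at this
      omega
    · exact h3
    · have : (w.1.val + 1) * L ≤ v.1.val * L := Nat.mul_le_mul_right L h3
      rw [Nat.add_mul, one_mul] at this
      omega
  have key2 : v.2.val = w.2.val := by
    rw [key] at h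
    omega
  exact Prod.ext (ZMod.val_injective L key) (ZMod.val_injective L key2)

lemma pos_past {L : ℕ} [NeZero L] {v w : Site L} (h : w ∈ past v) : pos w < pos v := by
  unfold past at h
  rw [Finset.mem_filter] at h
  have h1 := ZMod.val_lt w.2
  unfold pos
  rcases h.2 with h2 | ⟨h2, h3⟩
  · have : (w.1.val + 1) * L ≤ v.1.val * L := Nat.mul_le_mul_right L h2
    rw [Nat.add_mul, one_mul] at this
    omega
  · rw [h2]
    omega

lemma not_mem_past {L : ℕ} [NeZero L] (v : Site L) : v ∉ past v := fun h => lt_irrefl _ (pos_past h)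

lemma mem_near {L : ℕ} [NeZero L] (b : ℕ) (v : Site L) : v ∈ near b v := by
  unfold near
  rw [Finset.mem_image]
  refine ⟨(⟨b, by omega⟩, ⟨b, by omega⟩), Finset.mem_univ _, ?_⟩
  unfold sh
  simp

lemma card_near {L : ℕ} [NeZero L] (b : ℕ) (v : Site L) : (near b v).card ≤ (2 * b + 1) ^ 2 := by
  unfold near
  refine Finset.card_image_le.trans ?_
  rw [Finset.card_univ, Fintype.card_prod, Fintype.card_fin]
  nlinarith

lemma card_site (L : ℕ) [NeZero L] : (Fintype.card (Site L) : ℝ) = (L : ℝ) ^ 2 := by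
  rw [Fintype.card_prod, ZMod.card]
  push_cast
  ring

lemma near_add {L : ℕ} [NeZero L] (b : ℕ) (u : Site L) :
    near b (u.1 + (b : ZMod L), u.2 + (b : ZMod L)) =
      (Finset.univ : Finset (Fin (2 * b + 1) × Fin (2 * b + 1))).image (sh u) := by
  unfold near
  simp

/-- the translation by `(b, b)` -/
def tr {L : ℕ} (b : ℕ) : Site L ≃ Site L where
  toFun u := (u.1 + (b : ZMod L), u.2 + (b : ZMod L))
  invFun v := (v.1 - (b : ZMod L), v.2 - (b : ZMod L))
  left_inv u := by simp
  right_inv v := by simp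

lemma exp_add_smul {n : Type} [Fintype n] [DecidableEq n] (S : Matrix n n ℂ) (c : ℝ) :
    NormedSpace.exp (-(S + (c : ℂ) • (1 : Matrix n n ℂ))) =
      (Real.exp (-c) : ℂ) • NormedSpace.exp (-S) := by
  have h1 : -(S + (c : ℂ) • (1 : Matrix n n ℂ)) = algebraMap ℂ (Matrix n n ℂ) (-(c : ℂ)) + -S := by
    rw [Algebra.algebraMap_eq_smul_one]
    rw [neg_smul, neg_add, add_comm]
  rw [h1, Matrix.exp_add_of_commute _ _ (Algebra.commute_algebraMap_left _ _),
    ← NormedSpace.algebraMap_exp_comm, Algebra.algebraMap_eq_smul_one, smul_mul_assoc, one_mul]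
  congr 1
  rw [← Complex.exp_eq_exp_ℂ, ← Complex.ofReal_neg, Complex.ofReal_exp]

theorem t_int : StmLogRange → StmCexp → StmChain → StmTerm → StmEnt2 → StmSup → StmPure → StmTele →
    StmInt := by
  intro hLog hCe hCh _ hEn hSu hPu hTe d L _ hd b hb Ψ hΨ δ hδ hδ2
  obtain ⟨hpsd, htr, hu, he, htrace⟩ := hPu (Site L) d Ψ hΨ
  have hd0 : 0 < d := by omega
  obtain ⟨c1, c2, -, -, c5⟩ := hCe (Site L) d hd0
  have hX := hEn (Site L) d hd (dm Ψ) hpsd htr δ hδ hδ2
  choose X x1 x2 x3 x4 x5 using hX
  have hlogd : 0 ≤ Real.log d := Real.log_nonneg (by exact_mod_cast (by omega : 1 ≤ d))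
  -- ranges
  have hran : ∀ A, cexp A (X A) = X A := by
    intro A
    refine hLog _ (cexp A) (c1 A) (X A) (x1 A) ?_
    rw [x2 A, (c1 A).idem]
  have hone : ∀ A : Finset (Site L), cexp A (1 : TorOp d L) = 1 := by
    intro A
    have h1 : cexp ∅ (1 : TorOp d L) = 1 := by
      rw [c5]
      have h2 : (1 : TorOp d L).trace = (d : ℂ) ^ Fintype.card (Site L) := by
        rw [Matrix.trace_one, Fintype.card_fun, Fintype.card_fin]
        push_cast
        rfl
      have h3 : (d : ℂ) ^ Fintype.card (Site L) ≠ 0 := by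
        apply pow_ne_zero
        exact_mod_cast hd0.ne'
      rw [h2, mul_inv_cancel₀ h3, one_smul]
    conv_lhs => rw [← h1, c2, Finset.inter_empty, h1]
  -- the operators
  obtain ⟨P, hP⟩ : ∃ P : Site L → Finset (Site L), P = fun v => past v ∩ near b v := ⟨_, rfl⟩
  obtain ⟨Q, hQ⟩ : ∃ Q : Site L → Finset (Site L), Q = fun v => insert v (P v) := ⟨_, rfl⟩
  have hPQ : ∀ v, P v ∩ Q v = P v := by
    intro v
    rw [hQ]
    exact Finset.inter_eq_left.2 (Finset.subset_insert _ _)
  have hPN : ∀ v, near b v ∩ P v = P v := by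
    intro v
    rw [hP]
    exact Finset.inter_eq_right.2 Finset.inter_subset_right
  have hQN : ∀ v, near b v ∩ Q v = Q v := by
    intro v
    rw [hQ]
    refine Finset.inter_eq_right.2 (Finset.insert_subset (mem_near b v) ?_)
    rw [hP]
    exact Finset.inter_subset_right
  have hvP : ∀ v, v ∉ P v := by
    intro v h
    rw [hP] at h
    exact not_mem_past v (Finset.mem_inter.1 h).1
  have hcQ : ∀ v, (Q v).card = (P v).card + 1 := by
    intro v
    rw [hQ]
    exact Finset.card_insert_of_notMem (hvP v)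
  have hcQ2 : ∀ v, ((Q v).card : ℝ) ≤ (2 * (b : ℝ) + 1) ^ 2 := by
    intro v
    have h1 : (Q v).card ≤ (2 * b + 1) ^ 2 := by
      refine (Finset.card_le_card ?_).trans (card_near b v)
      rw [← hQN v]
      exact Finset.inter_subset_left
    exact_mod_cast h1
  obtain ⟨T, hT⟩ : ∃ T : Site L → TorOp d L, T = fun v => X (P v) - X (Q v) +
    ((Real.log d : ℝ) : ℂ) • (1 : TorOp d L) := ⟨_, rfl⟩
  have hherm1 : ∀ r : ℝ, ((r : ℂ) • (1 : TorOp d L)).IsHermitian := by
    intro r
    unfold Matrix.IsHermitian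
    rw [Matrix.conjTranspose_smul, Matrix.conjTranspose_one]
    simp
  have hTh : ∀ v, (T v).IsHermitian := by
    intro v
    rw [hT]
    exact ((x1 _).sub (x1 _)).add (hherm1 _)
  have hTN : ∀ v, cexp (near b v) (T v) = T v := by
    intro v
    have e : T v = X (P v) + ((-1 : ℂ) • X (Q v) + ((Real.log d : ℝ) : ℂ) • (1 : TorOp d L)) := by
      rw [hT]
      simp only [neg_smul, one_smul]
      abel
    have a1 : cexp (near b v) (X (P v)) = X (P v) := by
      conv_lhs => rw [← hran (P v), c2, hPN v, hran (P v)]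
    have a2 : cexp (near b v) (X (Q v)) = X (Q v) := by
      conv_lhs => rw [← hran (Q v), c2, hQN v, hran (Q v)]
    rw [e, (c1 _).add, (c1 _).add, (c1 _).smul, (c1 _).smul, a1, a2, hone]
  -- the interaction
  have hex : ∀ u : Site L, ∃ h : BoxOp d (2 * b + 1), h.IsHermitian ∧ T (tr b u) = term h u := by
    intro u
    refine hSu d (2 * b + 1) L hd0 hb u (T (tr b u)) (hTh _) ?_
    rw [← near_add b u]
    exact hTN (tr b u)
  choose h h1 h2 using hex
  have hsum : ∑ u, term (h u) u = ∑ v, T v := by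
    rw [← Equiv.sum_comp (tr b) T]
    exact Finset.sum_congr rfl fun u _ => (h2 u).symm
  refine ⟨h, h1, ?_, ?_, ?_⟩
  · -- the norm
    intro u
    rw [← h2 u]
    obtain ⟨v, hv⟩ : ∃ v, v = tr b u := ⟨_, rfl⟩
    rw [← hv]
    have e : T v = (X (P v) + (((((Fintype.card (Site L) : ℝ) - (P v).card) * Real.log d : ℝ)) : ℂ) •
        (1 : TorOp d L)) - (X (Q v) + (((((Fintype.card (Site L) : ℝ) - (Q v).card) * Real.log d : ℝ)) :
        ℂ) • (1 : TorOp d L)) := by
      rw [hT]
      have e1 : (((((Fintype.card (Site L) : ℝ) - (P v).card) * Real.log d : ℝ)) : ℂ) =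
          (((((Fintype.card (Site L) : ℝ) - (Q v).card) * Real.log d : ℝ)) : ℂ) +
            ((Real.log d : ℝ) : ℂ) := by
        rw [hcQ v]
        push_cast
        ring
      rw [e1, add_smul]
      abel_nf
    have n1 := x3 (P v)
    have n2 := x3 (Q v)
    have n3 : ‖T v‖ ≤ (((P v).card : ℝ) * Real.log d + Real.log (1 / δ)) +
        (((Q v).card : ℝ) * Real.log d + Real.log (1 / δ)) := by
      rw [e]
      exact (norm_sub_le _ _).trans (add_le_add n1 n2)
    have n4 : ((P v).card : ℝ) ≤ (2 * (b : ℝ) + 1) ^ 2 := by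
      have := hcQ2 v
      rw [hcQ v] at this
      push_cast at this
      linarith
    have n5 := mul_le_mul_of_nonneg_right n4 hlogd
    have n6 := mul_le_mul_of_nonneg_right (hcQ2 v) hlogd
    linarith
  · -- the free energy
    rw [hsum]
    have hchain := hCh (Site L) d hd0 pos (pos_inj L) (fun v => X (P v) - X (Q v)) Finset.univ 0 le_rfl
      (fun v => (x1 _).sub (x1 _)) (fun v _ => ⟨P v, X (Q v), X (P v), ?_, x1 _, x1 _, ?_, ?_, rfl⟩)
      (fun v hv => absurd (Finset.mem_univ v) hv)
    · rw [mul_zero, zero_add] at hchain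
      have e : ∑ v, T v = ∑ v, (X (P v) - X (Q v)) +
          (((Fintype.card (Site L) : ℝ) * Real.log d : ℝ) : ℂ) • (1 : TorOp d L) := by
        rw [hT, Finset.sum_add_distrib, Finset.sum_const, Finset.card_univ]
        congr 1
        rw [← Nat.cast_smul_eq_nsmul ℂ, smul_smul]
        congr 1
        push_cast
        rfl
      rw [e, exp_add_smul, Matrix.trace_smul, smul_eq_mul, Complex.re_ofReal_mul]
      by_cases ht : (NormedSpace.exp (-∑ v, (X (P v) - X (Q v)))).trace.re = 0
      · rw [ht, mul_zero, Real.log_zero]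
      · rw [Real.log_mul (Real.exp_pos _).ne' ht, Real.log_exp]
        linarith
    · intro w hw
      rw [hP] at hw
      exact pos_past (Finset.mem_inter.1 hw).1
    · have e : insert v (P v) = Q v := by rw [hQ]
      rw [e, x2, (c1 _).idem]
    · rw [x2, x2, c2, hPQ]
  · -- the energy
    rw [hsum, ← htrace, Finset.mul_sum, Matrix.trace_sum, Complex.re_sum]
    have key : ∀ v, (dm Ψ * T v).trace.re ≤ (ent Ψ (Q v) - ent Ψ (P v)) + 2 * δ := by
      intro v
      have e : (dm Ψ * T v).trace.re = (dm Ψ * X (P v)).trace.re - (dm Ψ * X (Q v)).trace.re +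
          Real.log d := by
        rw [hT]
        simp only
        rw [mul_add, mul_sub, Matrix.trace_add, Matrix.trace_sub, Matrix.mul_smul, mul_one,
          Matrix.trace_smul, htr, smul_eq_mul, mul_one, Complex.add_re, Complex.sub_re,
          Complex.ofReal_re]
      have y1 := x4 (P v)
      have y2 := x5 (Q v)
      have e1 : ((Fintype.card (Site L) : ℝ) - (P v).card) * Real.log d =
          ((Fintype.card (Site L) : ℝ) - (Q v).card) * Real.log d + Real.log d := by
        rw [hcQ v]
        push_cast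
        ring
      rw [e1] at y1
      rw [e]
      unfold ent
      linarith
    refine (Finset.sum_le_sum fun v _ => key v).trans ?_
    rw [Finset.sum_add_distrib, Finset.sum_const, Finset.card_univ, nsmul_eq_mul, card_site]
    have t := hTe L (ent Ψ)
    rw [hu, he, sub_zero] at t
    have e2 : ∑ v, cmi Ψ b v = ∑ v, (ent Ψ (Q v) - ent Ψ (P v)) -
        ∑ v : Site L, (ent Ψ (insert v (past v)) - ent Ψ (past v)) := by
      rw [← Finset.sum_sub_distrib]
      refine Finset.sum_congr rfl fun v _ => ?_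
      unfold cmi
      rw [hQ, hP]
      ring
    rw [e2, t]
    linarith

end Pool.Agent.U329.MG
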